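import Pool.Agent.Y755.FK.Stm

/-! `S_COMB`: expansion of the local conditions. -/

set_option autoImplicit false
set_option linter.unusedSimpArgs false
set_option linter.unusedVariables false

open Finset

open scoped Classical

namespace Pool.Agent.Y442.FK

open Pool.Agent.Y755.FK

noncomputable section

/-! ### Jacobi symbols as real numbers -/

theorem J_mul_left (a b : ℤ) (n : ℕ) : J (a * b) n = J a n * J b n := by
  simp [J, jacobiSym.mul_left]

theorem J_mul_right (a : ℤ) {m n : ℕ} (hm : m ≠ 0) (hn : n ≠ 0) :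
    J a (m * n) = J a m * J a n := by
  simp [J, jacobiSym.mul_right' a hm hn]

theorem J_one_left (n : ℕ) : J 1 n = 1 := by
  simp [J]

theorem J_one_right (a : ℤ) : J a 1 = 1 := by
  simp [J]

theorem odd_mod {n : ℕ} (hn : Odd n) : n % 4 = 1 ∨ n % 4 = 3 := by
  obtain ⟨k, hk⟩ := hn
  omega

theorem J_neg_one {n : ℕ} (hn : Odd n) : J (-1) n = if n % 4 = 1 then 1 else -1 := by
  unfold J
  rw [jacobiSym.at_neg_one hn]
  rcases odd_mod hn with h | h
  · rw [ZMod.χ₄_nat_one_mod_four h, if_pos h]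
    simp
  · rw [ZMod.χ₄_nat_three_mod_four h, if_neg (by omega)]
    simp

theorem J_sq {a : ℤ} {n : ℕ} (h : a.gcd n = 1) : J a n ^ 2 = 1 := by
  unfold J
  have := jacobiSym.sq_one h
  exact_mod_cast this

/-- reciprocity -/
theorem J_recip {a b : ℕ} (ha : Odd a) (hb : Odd b) (hab : Nat.Coprime a b) :
    J a b * J b a = (1 + J (-1) a + J (-1) b - J (-1) a * J (-1) b) / 2 := by
  have hsq : J b a * J b a = 1 := by
    rw [← sq]
    refine J_sq ?_
    rw [Int.gcd_natCast_natCast]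
    exact hab.symm
  rw [J_neg_one ha, J_neg_one hb]
  rcases odd_mod ha with h1 | h1
  · have h2 : J a b = J b a := by
      unfold J
      rw [jacobiSym.quadratic_reciprocity_one_mod_four h1 hb]
    rw [h2, hsq, if_pos h1]
    split_ifs <;> norm_num
  · rcases odd_mod hb with h2 | h2
    · have h3 : J a b = J b a := by
        unfold J
        rw [jacobiSym.quadratic_reciprocity_one_mod_four' ha h2]
      rw [h3, hsq, if_pos h2]
      split_ifs <;> norm_num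
    · have h3 : J a b = - J b a := by
        unfold J
        rw [jacobiSym.quadratic_reciprocity_three_mod_four h1 h2]
        push_cast
        ring
      rw [h3, if_neg (by omega), if_neg (by omega)]
      rw [neg_mul, hsq]
      norm_num

/-! ### Sums over divisors -/

/-- the symbol as an arithmetic function -/
def Jf (a : ℤ) : ArithmeticFunction ℝ := ⟨fun n => if n = 0 then 0 else J a n, by simp⟩

theorem Jf_apply (a : ℤ) {n : ℕ} (hn : n ≠ 0) : Jf a n = J a n := if_neg hn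

theorem Jf_mult (a : ℤ) : (Jf a).IsMultiplicative := by
  refine ⟨by rw [Jf_apply a one_ne_zero, J_one_right], ?_⟩
  intro m n _
  by_cases hm : m = 0
  · subst hm
    simp
  by_cases hn : n = 0
  · subst hn
    simp
  rw [Jf_apply a (mul_ne_zero hm hn), Jf_apply a hm, Jf_apply a hn, J_mul_right a hm hn]

theorem sum_J (a : ℤ) {c : ℕ} (hc : Squarefree c) :
    ∑ d ∈ c.divisors, J a d = ∏ p ∈ c.primeFactors, (1 + J a p) := by
  have h := (Jf_mult a).prodPrimeFactors_one_add_of_squarefree hc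
  rw [Finset.prod_congr rfl (fun p hp => by
    rw [Jf_apply a (Nat.prime_of_mem_primeFactors hp).ne_zero] :
      ∀ p ∈ c.primeFactors, 1 + Jf a p = 1 + J a p)] at h
  rw [h]
  refine Finset.sum_congr rfl fun d hd => ?_
  rw [Jf_apply a (Nat.pos_of_mem_divisors hd).ne']

theorem cond_sum {a : ℤ} {c : ℕ} (hc : Squarefree c) (hac : a.gcd c = 1) :
    (2 : ℝ) ^ om c * (if ∀ p : ℕ, p.Prime → p ∣ c → jacobiSym a p = 1 then 1 else 0) =
      ∑ d ∈ c.divisors, J a d := by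
  rw [sum_J a hc]
  by_cases h : ∀ p : ℕ, p.Prime → p ∣ c → jacobiSym a p = 1
  · rw [if_pos h, mul_one, om, ← Finset.prod_const]
    refine Finset.prod_congr rfl fun p hp => ?_
    rw [J, h p (Nat.prime_of_mem_primeFactors hp) (Nat.dvd_of_mem_primeFactors hp)]
    norm_num
  · rw [if_neg h, mul_zero]
    push Not at h
    obtain ⟨p, hp, hpc, hne⟩ := h
    refine (Finset.prod_eq_zero (Nat.mem_primeFactors.2 ⟨hp, hpc, hc.ne_zero⟩) ?_).symm
    have h1 : a.gcd p = 1 := Nat.Coprime.coprime_dvd_right hpc hac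
    rcases jacobiSym.eq_one_or_neg_one h1 with h2 | h2
    · exact absurd h2 hne
    · rw [J, h2]
      norm_num

/-! ### Regrouping -/

theorem regroup (n : ℕ) (H : ℕ → ℕ → ℕ → ℕ → ℝ) :
    ∑ p ∈ n.divisorsAntidiagonal, ∑ q ∈ p.1.divisorsAntidiagonal,
      ∑ r ∈ p.2.divisorsAntidiagonal, H q.1 q.2 r.1 r.2 =
    ∑ p ∈ n.divisorsAntidiagonal, ∑ q ∈ p.1.divisorsAntidiagonal,
      ∑ r ∈ p.2.divisorsAntidiagonal, H r.2 q.1 q.2 r.1 := by
  simp only [Finset.sum_sigma']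
  refine Finset.sum_bij'
    (fun x _ => ⟨(x.2.1.2 * x.2.2.1, x.2.2.2 * x.2.1.1), ⟨(x.2.1.2, x.2.2.1),
      (x.2.2.2, x.2.1.1)⟩⟩)
    (fun x _ => ⟨(x.2.2.2 * x.2.1.1, x.2.1.2 * x.2.2.1), ⟨(x.2.2.2, x.2.1.1),
      (x.2.1.2, x.2.2.1)⟩⟩)
    ?_ ?_ ?_ ?_ ?_
  · rintro ⟨⟨b, c⟩, ⟨⟨b1, b2⟩, ⟨c1, c2⟩⟩⟩ h
    simp only [Finset.mem_sigma, Nat.mem_divisorsAntidiagonal] at h ⊢
    obtain ⟨⟨h1, h2⟩, ⟨h3, h4⟩, h5, h6⟩ := h
    subst h3
    subst h5
    subst h1
    simp only [ne_eq, mul_eq_zero, not_or] at h2 ⊢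
    refine ⟨⟨by ring, ?_⟩, ⟨?_, ?_⟩, ?_, ?_⟩ <;> tauto
  · rintro ⟨⟨b, c⟩, ⟨⟨b1, b2⟩, ⟨c1, c2⟩⟩⟩ h
    simp only [Finset.mem_sigma, Nat.mem_divisorsAntidiagonal] at h ⊢
    obtain ⟨⟨h1, h2⟩, ⟨h3, h4⟩, h5, h6⟩ := h
    subst h3
    subst h5
    subst h1
    simp only [ne_eq, mul_eq_zero, not_or] at h2 ⊢
    refine ⟨⟨by ring, ?_⟩, ⟨?_, ?_⟩, ?_, ?_⟩ <;> tauto
  · rintro ⟨⟨b, c⟩, ⟨⟨b1, b2⟩, ⟨c1, c2⟩⟩⟩ h
    simp only [Finset.mem_sigma, Nat.mem_divisorsAntidiagonal] at h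
    obtain ⟨⟨h1, h2⟩, ⟨h3, h4⟩, h5, h6⟩ := h
    subst h3
    subst h5
    rfl
  · rintro ⟨⟨b, c⟩, ⟨⟨b1, b2⟩, ⟨c1, c2⟩⟩⟩ h
    simp only [Finset.mem_sigma, Nat.mem_divisorsAntidiagonal] at h
    obtain ⟨⟨h1, h2⟩, ⟨h3, h4⟩, h5, h6⟩ := h
    subst h3
    subst h5
    rfl
  · rintro ⟨⟨b, c⟩, ⟨⟨b1, b2⟩, ⟨c1, c2⟩⟩⟩ _
    rfl

/-! ### The fourfold sum -/

/-- the fourfold sum without the factor -/
def S4 (e f e' f' : ℤ) (n : ℕ) : ℝ :=
  ∑ p ∈ n.divisorsAntidiagonal, ∑ q ∈ p.1.divisorsAntidiagonal,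
    ∑ r ∈ p.2.divisorsAntidiagonal, (J e q.1 * J f q.2 * J q.1 q.2) *
      (J e' r.1 * J f' r.2 * J r.1 r.2)

theorem hh_eq (e f : ℤ) (n : ℕ) :
    hh e f n = ∑ q ∈ n.divisorsAntidiagonal, J e q.1 * J f q.2 * J q.1 q.2 :=
  (Nat.sum_divisorsAntidiagonal (f := fun a b => J e a * J f b * J a b)).symm

theorem g4_eq (e f e' f' : ℤ) (n : ℕ) : g4 e f e' f' n = (1 / 2 : ℝ) ^ om n * S4 e f e' f' n := by
  unfold g4 S4
  congr 1
  rw [← Nat.sum_divisorsAntidiagonal (f := fun a b => hh e f a * hh e' f' b)]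
  refine Finset.sum_congr rfl fun p _ => ?_
  rw [hh_eq, hh_eq, Finset.sum_mul_sum]

theorem om_mul {b c : ℕ} (h : Nat.Coprime b c) : om (b * c) = om b + om c := by
  unfold om
  rw [h.primeFactors_mul, Finset.card_union_of_disjoint h.disjoint_primeFactors]

theorem osf_mul {b c : ℕ} (h : osf (b * c)) : osf b ∧ osf c ∧ Nat.Coprime b c := by
  obtain ⟨h1, h2⟩ := h
  rw [Nat.odd_mul] at h1
  rw [Nat.squarefree_mul_iff] at h2
  exact ⟨⟨h1.1, h2.2.1⟩, ⟨h1.2, h2.2.2⟩, h2.1⟩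

theorem S4_neg (e f e' f' : ℤ) {n : ℕ} (hn : osf n) :
    S4 (-1 * e) (-1 * f) (-1 * e') (-1 * f') n = J (-1) n * S4 e f e' f' n := by
  unfold S4
  rw [Finset.mul_sum]
  refine Finset.sum_congr rfl fun p hp => ?_
  rw [Finset.mul_sum]
  refine Finset.sum_congr rfl fun q hq => ?_
  rw [Finset.mul_sum]
  refine Finset.sum_congr rfl fun r hr => ?_
  rw [Nat.mem_divisorsAntidiagonal] at hp hq hr
  have hn0 : n ≠ 0 := hp.2
  have hq1 : q.1 ≠ 0 := left_ne_zero_of_mul (hq.1 ▸ hq.2)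
  have hq2 : q.2 ≠ 0 := right_ne_zero_of_mul (hq.1 ▸ hq.2)
  have hr1 : r.1 ≠ 0 := left_ne_zero_of_mul (hr.1 ▸ hr.2)
  have hr2 : r.2 ≠ 0 := right_ne_zero_of_mul (hr.1 ▸ hr.2)
  have h1 : J (-1) n = J (-1) q.1 * J (-1) q.2 * (J (-1) r.1 * J (-1) r.2) := by
    rw [← hp.1, ← hq.1, ← hr.1, J_mul_right _ (mul_ne_zero hq1 hq2) (mul_ne_zero hr1 hr2),
      J_mul_right _ hq1 hq2, J_mul_right _ hr1 hr2]
  rw [h1, J_mul_left, J_mul_left, J_mul_left, J_mul_left]
  ring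

theorem gcd_odd {β : ℤ} (hβ : β = 1 ∨ β = 2) {c : ℕ} (hc : Odd c) : β.gcd c = 1 := by
  rcases hβ with rfl | rfl
  · simp
  · have : Nat.Coprime 2 c := (Nat.coprime_two_left).2 hc
    exact this

theorem gcd_mul_odd {β : ℤ} (hβ : β = 1 ∨ β = 2) {b c : ℕ} (hc : Odd c)
    (hbc : Nat.Coprime b c) : (β * b).gcd c = 1 := by
  rw [← Int.isCoprime_iff_gcd_eq_one]
  refine IsCoprime.mul_left ?_ ?_
  · rw [Int.isCoprime_iff_gcd_eq_one]
    exact gcd_odd hβ hc
  · exact Nat.isCoprime_iff_coprime.2 hbc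

theorem qn_eq {β γ : ℤ} (hβ : β = 1 ∨ β = 2) (hγ : γ = 1 ∨ γ = 2) {n : ℕ} (hn : osf n) :
    (2 : ℝ) ^ om n * qn β γ n =
      1 / 2 * (S4 1 β 1 γ n + S4 1 β 1 (-1 * γ) n + S4 1 (-1 * β) 1 γ n -
        S4 1 (-1 * β) 1 (-1 * γ) n) := by
  have h1 : (qn β γ n : ℝ) = ∑ p ∈ n.divisorsAntidiagonal, if Qc β γ p.1 p.2 then (1 : ℝ) else 0 := by
    rw [Nat.sum_divisorsAntidiagonal (f := fun a b => if Qc β γ a b then (1 : ℝ) else 0)]
    unfold qn
    rw [Finset.card_filter]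
    push_cast
    rfl
  set H : ℕ → ℕ → ℕ → ℕ → ℝ := fun b1 b2 c1 c2 =>
    (1 + J (-1) b1 + J (-1) c1 - J (-1) b1 * J (-1) c1) / 2 *
      (J β c1 * J γ b1 * J b2 c1 * J c2 b1) with hH
  have h2 : (2 : ℝ) ^ om n * qn β γ n =
      ∑ p ∈ n.divisorsAntidiagonal, ∑ q ∈ p.1.divisorsAntidiagonal,
        ∑ r ∈ p.2.divisorsAntidiagonal, H q.1 q.2 r.1 r.2 := by
    rw [h1, Finset.mul_sum]
    refine Finset.sum_congr rfl fun p hp => ?_
    rw [Nat.mem_divisorsAntidiagonal] at hp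
    obtain ⟨b, c⟩ := p
    simp only at hp ⊢
    obtain ⟨rfl, -⟩ := hp
    obtain ⟨hb, hc, hbc⟩ := osf_mul hn
    have h3 : (if Qc β γ b c then (1 : ℝ) else 0) =
        (if ∀ p : ℕ, p.Prime → p ∣ c → jacobiSym (β * b) p = 1 then 1 else 0) *
        (if ∀ p : ℕ, p.Prime → p ∣ b → jacobiSym (γ * c) p = 1 then 1 else 0) := by
      unfold Qc
      by_cases h4 : ∀ p : ℕ, p.Prime → p ∣ c → jacobiSym (β * b) p = 1
      · by_cases h5 : ∀ p : ℕ, p.Prime → p ∣ b → jacobiSym (γ * c) p = 1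
        · rw [if_pos ⟨h4, h5⟩, if_pos h4, if_pos h5, one_mul]
        · rw [if_neg (fun h => h5 h.2), if_neg h5, mul_zero]
      · rw [if_neg (fun h => h4 h.1), if_neg h4, zero_mul]
    rw [h3, om_mul hbc, pow_add]
    have h6 := cond_sum hc.2 (gcd_mul_odd hβ hc.1 hbc)
    have h7 := cond_sum hb.2 (gcd_mul_odd hγ hb.1 hbc.symm)
    calc _ = (2 ^ om c *
          (if ∀ p : ℕ, p.Prime → p ∣ c → jacobiSym (β * b) p = 1 then 1 else 0)) *
          (2 ^ om b *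
          (if ∀ p : ℕ, p.Prime → p ∣ b → jacobiSym (γ * c) p = 1 then 1 else 0)) := by ring
      _ = (∑ d ∈ b.divisors, J (γ * c) d) * ∑ d ∈ c.divisors, J (β * b) d := by
          rw [h6, h7, mul_comm]
      _ = _ := by
          rw [← Nat.sum_divisorsAntidiagonal (f := fun x _ => J (γ * c) x),
            ← Nat.sum_divisorsAntidiagonal (f := fun x _ => J (β * b) x), Finset.sum_mul_sum]
          refine Finset.sum_congr rfl fun q hq => Finset.sum_congr rfl fun r hr => ?_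
          rw [Nat.mem_divisorsAntidiagonal] at hq hr
          obtain ⟨b1, b2⟩ := q
          obtain ⟨c1, c2⟩ := r
          simp only at hq hr ⊢
          obtain ⟨rfl, -⟩ := hq
          obtain ⟨rfl, -⟩ := hr
          obtain ⟨hb1, hb2, -⟩ := osf_mul hb
          obtain ⟨hc1, hc2, -⟩ := osf_mul hc
          have hco : Nat.Coprime b1 c1 :=
            (hbc.coprime_mul_right).coprime_mul_right_right
          have hrec := J_recip hb1.1 hc1.1 hco
          simp only [hH]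
          rw [← hrec]
          push_cast
          rw [J_mul_left, J_mul_left, J_mul_left, J_mul_left]
          ring
  rw [h2, regroup]
  unfold S4
  rw [← Finset.sum_add_distrib, ← Finset.sum_add_distrib, ← Finset.sum_sub_distrib,
    Finset.mul_sum]
  refine Finset.sum_congr rfl fun p _ => ?_
  rw [← Finset.sum_add_distrib, ← Finset.sum_add_distrib, ← Finset.sum_sub_distrib,
    Finset.mul_sum]
  refine Finset.sum_congr rfl fun q _ => ?_
  rw [← Finset.sum_add_distrib, ← Finset.sum_add_distrib, ← Finset.sum_sub_distrib,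
    Finset.mul_sum]
  refine Finset.sum_congr rfl fun r _ => ?_
  simp only [hH, J_one_left, J_mul_left (-1) β, J_mul_left (-1) γ]
  ring

theorem t_COMB : S_COMB := by
  intro i n hn
  have hp : (2 : ℝ) ^ om n ≠ 0 := by positivity
  have hhalf : (1 / 2 : ℝ) ^ om n = ((2 : ℝ) ^ om n)⁻¹ := by
    rw [one_div, inv_pow]
  have h11 := qn_eq (Or.inl rfl) (Or.inl rfl) hn
  have h22 := qn_eq (Or.inr rfl) (Or.inr rfl) hn
  have h21 := qn_eq (Or.inr rfl) (Or.inl rfl) hn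
  have hneg := fun e f e' f' => S4_neg e f e' f' hn
  have hchi := J_neg_one hn.1
  simp only [g4_eq, hhalf]
  have h02 : ¬ (0 : Fin 3) = 2 := by decide
  have h12 : ¬ (1 : Fin 3) = 2 := by decide
  have h10 : ¬ (1 : Fin 3) = 0 := by decide
  have h20 : ¬ (2 : Fin 3) = 0 := by decide
  have h21' : ¬ (2 : Fin 3) = 1 := by decide
  obtain rfl | rfl | rfl : i = 0 ∨ i = 1 ∨ i = 2 := by
    fin_cases i <;> simp
  · -- `i = 0`
    have n1 := hneg 1 1 1 1
    have n2 := hneg 1 1 1 (-1)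
    have n3 := hneg 1 (-1) 1 1
    have n4 := hneg 1 (-1) 1 (-1)
    norm_num at n1 n2 n3 n4 h11
    simp only [Fintype.sum_prod_type, Fintype.sum_bool, co, c1, c2, c3, c4, fv, ep, tw, sg,
      h02, h12, h10, h20, h21', if_false, if_true]
    norm_num
    rw [n1, n2, n3, n4, hchi]
    rcases odd_mod hn.1 with h | h
    · simp only [h]
      norm_num
    · simp only [h]
      norm_num
      have : (qn 1 1 n : ℝ) = (2 ^ om n)⁻¹ * (2 ^ om n * qn 1 1 n) := by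
        rw [inv_mul_cancel_left₀ hp]
      rw [this, h11]
      ring
  · -- `i = 1`
    have n1 := hneg 1 1 1 1
    have n2 := hneg 1 1 1 (-1)
    have n3 := hneg 1 (-1) 1 1
    have n4 := hneg 1 (-1) 1 (-1)
    have m1 := hneg 1 2 1 2
    have m2 := hneg 1 2 1 (-2)
    have m3 := hneg 1 (-2) 1 2
    have m4 := hneg 1 (-2) 1 (-2)
    norm_num at n1 n2 n3 n4 m1 m2 m3 m4 h11 h22
    simp only [Fintype.sum_prod_type, Fintype.sum_bool, co, c1, c2, c3, c4, fv, ep, tw, sg,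
      h02, h12, h10, h20, h21', if_false, if_true]
    norm_num
    rw [n1, n2, n3, n4, m1, m2, m3, m4, hchi]
    rcases odd_mod hn.1 with h | h
    · simp only [h]
      norm_num
      have e1 : (qn 1 1 n : ℝ) = (2 ^ om n)⁻¹ * (2 ^ om n * qn 1 1 n) := by
        rw [inv_mul_cancel_left₀ hp]
      have e2 : (qn 2 2 n : ℝ) = (2 ^ om n)⁻¹ * (2 ^ om n * qn 2 2 n) := by
        rw [inv_mul_cancel_left₀ hp]
      rw [e1, e2, h11, h22]
      ring
    · simp only [h]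
      norm_num
      ring
  · -- `i = 2`
    norm_num at h21
    simp only [Fintype.sum_prod_type, Fintype.sum_bool, co, c1, c2, c3, c4, fv, ep, tw, sg,
      h02, h12, h10, h20, h21', if_false, if_true]
    norm_num
    have e1 : (qn 2 1 n : ℝ) = (2 ^ om n)⁻¹ * (2 ^ om n * qn 2 1 n) := by
      rw [inv_mul_cancel_left₀ hp]
    rw [e1, h21]
    ring

end

end Pool.Agent.Y442.FK
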