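import Pool.Agent.Y755.FK.Stm

/-! `S_SQR`: analytic square roots on a rectangle. The existence of the logarithm follows
`Pool.Agent.W930.HTLog`. -/

set_option autoImplicit false

open Filter Topology Metric Set

namespace Pool.Agent.Y442.FK

open Pool.Agent.Y755.FK

theorem log_diff {U : Set ℂ} (hU : IsOpen U) {f L : ℂ → ℂ} (hf : DifferentiableOn ℂ f U)
    (hL : ContinuousOn L U) (h : ∀ z ∈ U, Complex.exp (L z) = f z) : DifferentiableOn ℂ L U := by
  intro z1 hz1
  have hn : U ∈ 𝓝 z1 := hU.mem_nhds hz1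
  have hf1 : f z1 ≠ 0 := by rw [← h z1 hz1]; exact Complex.exp_ne_zero _
  have hLc : ContinuousAt L z1 := hL.continuousAt hn
  have hd : DifferentiableAt ℂ (fun z => Complex.log (f z / f z1) + L z1) z1 := by
    refine (DifferentiableAt.clog ((hf.differentiableAt hn).div_const _) ?_).add_const _
    rw [div_self hf1]
    exact Complex.one_mem_slitPlane
  have hev : ∀ᶠ z in 𝓝 z1, ‖L z - L z1‖ < Real.pi := by
    have h1 : ContinuousAt (fun z => ‖L z - L z1‖) z1 := (hLc.sub continuousAt_const).norm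
    refine h1.eventually (gt_mem_nhds ?_)
    simp [Real.pi_pos]
  refine (hd.congr_of_eventuallyEq ?_).differentiableWithinAt
  filter_upwards [hev, hn] with z hz hzU
  have h2 : f z / f z1 = Complex.exp (L z - L z1) := by
    rw [Complex.exp_sub, h z hzU, h z1 hz1]
  have h3 := (Complex.abs_im_le_norm (L z - L z1)).trans_lt hz
  rw [h2, Complex.log_exp (abs_lt.1 h3).1 (abs_lt.1 h3).2.le]
  ring

theorem exists_log {U : Set ℂ} (hU : IsOpen U) (hc : Convex ℝ U) (hne : U.Nonempty) {f : ℂ → ℂ}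
    (hf : DifferentiableOn ℂ f U) (h0 : ∀ z ∈ U, f z ≠ 0) :
    ∃ L : ℂ → ℂ, DifferentiableOn ℂ L U ∧ ∀ z ∈ U, Complex.exp (L z) = f z := by
  have h1 : IsSimplyConnected U := by
    have := hc.contractibleSpace hne
    show SimplyConnectedSpace U
    infer_instance
  obtain ⟨L, hL, hLe⟩ := Complex.exists_continuousOn_eqOn_exp_comp h1 hU hf.continuousOn (by
    rintro ⟨z, hz, hz0⟩
    exact h0 z hz hz0)
  exact ⟨L, log_diff hU hf hL hLe, hLe⟩

theorem t_SQR : S_SQR := by
  intro L a b T hab hT h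
  set U : Set ℂ := {s | a < s.re ∧ s.re < b ∧ |s.im| < T} with hU
  have hUo : IsOpen U := by
    have h1 : IsOpen {s : ℂ | a < s.re} := isOpen_lt continuous_const Complex.continuous_re
    have h2 : IsOpen {s : ℂ | s.re < b} := isOpen_lt Complex.continuous_re continuous_const
    have h3 : IsOpen {s : ℂ | |s.im| < T} :=
      isOpen_lt (continuous_abs.comp Complex.continuous_im) continuous_const
    exact h1.inter (h2.inter h3)
  have hUc : Convex ℝ U := by
    have h1 : Convex ℝ {s : ℂ | a < s.re} := convex_halfSpace_re_gt a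
    have h2 : Convex ℝ {s : ℂ | s.re < b} := convex_halfSpace_re_lt b
    have h3 : Convex ℝ {s : ℂ | |s.im| < T} := by
      have h4 : {s : ℂ | |s.im| < T} = {s : ℂ | -T < s.im} ∩ {s : ℂ | s.im < T} := by
        ext s
        show |s.im| < T ↔ -T < s.im ∧ s.im < T
        exact abs_lt
      rw [h4]
      exact (convex_halfSpace_im_gt _).inter (convex_halfSpace_im_lt _)
    exact h1.inter (h2.inter h3)
  have hne : U.Nonempty := by
    refine ⟨(((a + b) / 2 : ℝ) : ℂ), ?_, ?_, ?_⟩
    · rw [Complex.ofReal_re]; linarith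
    · rw [Complex.ofReal_re]; linarith
    · rw [Complex.ofReal_im, abs_zero]; exact hT
  obtain ⟨F, hF, hFe⟩ := exists_log hUo hUc hne (f := L)
    (fun z hz => (h z hz.1 hz.2.1 hz.2.2).1.differentiableWithinAt)
    (fun z hz => (h z hz.1 hz.2.1 hz.2.2).2)
  refine ⟨fun s => Complex.exp (F s / 2), fun s h1 h2 h3 => ?_⟩
  have hs : s ∈ U := ⟨h1, h2, h3⟩
  refine ⟨((hF.differentiableAt (hUo.mem_nhds hs)).div_const 2).cexp, ?_⟩
  rw [← Complex.exp_nat_mul]
  rw [← hFe s hs]
  congr 1
  push_cast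
  ring

end Pool.Agent.Y442.FK
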